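import Pool.Agent.Q298.MX.Cyc
import Pool.Agent.Q298.JS.Tow

/-!
# Subadditivity with variation: constant and superelliptic factors over several linear systems

Let `X` be a projective manifold and let `|V_1|, ..., |V_c|` be linear systems on `X` without fixed
components. Let `Y_j` be the image of the rational map of `X` to the product of the first `j`
projective spaces, a variety of the dimension `d_1 + ... + d_j` with `d_j ≥ 1`; it need not be a
product. Let `V_j` be of dimension `n_j = d_j + k_j`. Suppose:

* (position) for each `j`, the images of the general fibres of `X ⇢ Y_{j-1}` (of the Stein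
  factorization) in the projective space of `V_j` are nondegenerate;
* (the members) `V_j` is spanned by finitely many members `D_i` of `|V_j|`, in arbitrary position, and
  `V_j` is not the direct sum of two nonzero subspaces such that each `D_i` belongs to one of them; at
  every prime divisor `P` of `X` which is a component of some `D_i`, some `D_i'` has the multiplicity
  at least `s_j`, where `2 s_j > R_j (k_j + 1) (k_j + 2)` with `R_j = n_j + 2`, or `R_j = n_j + 1` if
  there are at least `n_j + 3` different members;
* (the fibres) the geometric generic fibre `F` of the map of `X` to `Y = Y_c` is birational to the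
  product of a projective manifold `F₀` of dimension `e₀`, which does not vary but is otherwise
  arbitrary, and of superelliptic curves `C_1, ..., C_{e₁}` with varying branch points: for some
  variety `Y''` with a generically finite map to `Y`, ramified anywhere, the function field `K'` of
  the main component of the fibre product `X ×_Y Y''` is generated by the elements which are algebraic
  over the function field of `Y`, by the function field `M` of `F₀` and by `x_j`, `z_j` with
  `z_j ^ m_j = G_j (x_j)`, where `m_j ≥ 1` and the `G_j ≠ 0` are polynomials whose coefficients are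
  algebraic over the function field of `Y`.

Let `W_j` be the sum over the roots of `G_j`, of multiplicity `μ`, of `1 - gcd (m_j, μ) / m_j`, and of
`1 - gcd (m_j, deg G_j) / m_j`. By Hurwitz, the curve `C_j` is of genus `0`, `1` or at least two
according to whether `W_j < 2`, `W_j = 2` or `W_j > 2`. Let all `W_j ≥ 2`, and let `g` be the number
of the `j` with `W_j > 2`. If `κ(F₀) ≥ a ≥ 0` then

  `κ(X) ≥ dim Y + a + g`.

As `κ(F) = κ(F₀) + g`, this is `κ(X) ≥ κ(F) + dim Y`, which contains the inequality
`κ(X) ≥ κ(F) + max (κ(Y), Var(f))` of Viehweg for the fibration of a resolution of `X` over a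
resolution of (the Stein factorization of) `Y`. If some `W_j < 2` then `κ(F) = -∞`, and there is
nothing to prove. The variety `Y` need not be of general type (it can be any variety, for instance
with `κ(Y) = 0`), `F` need not be of general type, and it is not known to have a good minimal model,
as `F₀` is arbitrary.

The function-field language of the starting repository is used. `K` is the function field of `X`;
the prime divisors of `X` are places `P` of `K` (`Place`, `Divisorial`), `P.ord` is the order along
`P`, and `X` is given by the set of its prime divisors. A linear system is given by a finite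
dimensional space `V` of rational functions: if `a` is the minimum of the orders at `P` of the
members of `V` then the multiplicity of `P` in the divisor of the system which is given by `f ∈ V` is
`P.ord f - a`. A section of `N K_X` is an `N`-canonical form `ω` (`IsPluri`), a function of rational
vector fields, whose value on vector fields that are regular at `P` is regular at `P`, for
all prime divisors `P` of `X`. For `F₀`, with the function field `M`, all divisorial places of `M`
are taken: these are the sections of `N K` on a smooth projective model. `acl ℂ S` is the algebraic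
closure in the ambient field of the field which is generated by `S`.

Proof. Three kinds of forms along the fibres of the successive maps are multiplied, and controlled at
all prime divisors of `X`, including the vertical ones: the generalised Wronskians of `V_j` with
respect to vector fields which are tangent to the fibres of `X ⇢ Y_{j-1}`
(`Pool.Agent.Q298.JS.lin_stage`), the pluricanonical forms of `F₀`
(`Pool.Agent.Q298.MX.pluri_stage`) and forms made of the superelliptic curves over the compositum of
the function fields of `Y` and `F₀` (`Pool.Agent.Y191.cyc_low`).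
-/

set_option autoImplicit false

open FF Pool.Agent.W602.GT Pool.Agent.Y172 UniqueFactorizationMonoid

namespace Pool.Agent.Results.MP_5c318e_ag.ConstantTimesSuperelliptic

/-- The function field of the image `Y_j` of `X` under the first `j` linear systems: the field which
is generated by the quotients of the members of each of them. -/
noncomputable def ImageField {K : Type} [Field K] [Algebra ℂ K] {c : ℕ}
    (V : Fin c → Submodule ℂ K) (j : ℕ) : IntermediateField ℂ K :=
  IntermediateField.adjoin ℂ {y : K | ∃ i : Fin c, (i : ℕ) < j ∧ ∃ f ∈ V i, ∃ g ∈ V i, y = f / g}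

/-- The algebraic closure of the subfield `L` in `K`. -/
noncomputable def ClosureIn {K : Type} [Field K] [Algebra ℂ K] (L : IntermediateField ℂ K) :
    IntermediateField ℂ K :=
  (algebraicClosure L K).restrictScalars ℂ

/-- `V` is the direct sum of two nonzero subspaces such that each `φ i` belongs to one of them. -/
def Splits {q : ℕ} {K : Type} [Field K] [Algebra ℂ K] (V : Submodule ℂ K) (φ : Fin q → K) : Prop :=
  ∃ V1 V2 : Submodule ℂ K, V1 ≠ ⊥ ∧ V2 ≠ ⊥ ∧ Disjoint V1 V2 ∧ V1 ⊔ V2 = V ∧
    ∀ i, φ i ∈ V1 ∨ φ i ∈ V2

/-- There are `r` members `φ i` of which no two are proportional. -/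
def Different (r : ℕ) {q : ℕ} {K : Type} [Field K] [Algebra ℂ K] (φ : Fin q → K) : Prop :=
  ∃ τ : Fin r → Fin q, ∀ i j, i ≠ j → ∀ t : ℂ, φ (τ i) ≠ t • φ (τ j)

/-- The condition on the multiplicities, on a variety `X` of dimension `w`: if the prime divisor `P`
of `X` is a component of one of the divisors `D i` (the order of `φ i` at `P` is not the minimum `a`
of the orders of the members of `V`), then some `D i` has multiplicity at least `s` at `P`. -/
def Multiplicities (w : ℕ) {q : ℕ} {K : Type} [Field K] [Algebra ℂ K] (V : Submodule ℂ K)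
    (φ : Fin q → K) (X : Set (Place ℂ K)) (s : ℕ) : Prop :=
  ∀ P ∈ X, Divisorial w P → ∀ a : ℤ, (∀ f ∈ V, f = 0 ∨ a ≤ P.ord f) →
    (∃ f ∈ V, f ≠ 0 ∧ P.ord f = a) → (∃ i, P.ord (φ i) ≠ a) → ∃ i, a + s ≤ P.ord (φ i)

/-- The hypotheses on the linear systems `V i` on a variety `X` of dimension `w`. The dimension of
`Y_j` is the sum of the `d i` with `i < j`, `V i` has the dimension `d i + k i` as a linear system
and, by `nondegenerate`, this remains true for the space which it spans over the algebraic closure of
the function field of the image under the previous linear systems. -/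
structure PowerfulSystems {K : Type} [Field K] [Algebra ℂ K] (w : ℕ) (X : Set (Place ℂ K)) {c : ℕ}
    (d k : Fin c → ℕ) (V : Fin c → Submodule ℂ K) : Prop where
  pos : ∀ i, 1 ≤ d i
  dim : ∀ j ≤ c, Algebra.trdeg ℂ (ImageField V j) =
    (∑ i ∈ Finset.univ.filter (fun i : Fin c => (i : ℕ) < j), d i : ℕ)
  rank : ∀ i, Module.finrank ℂ (V i) = d i + k i + 1
  nondegenerate : ∀ i : Fin c, Module.finrank (ClosureIn (ImageField V i))
    (Submodule.span (ClosureIn (ImageField V i)) (V i : Set K)) = d i + k i + 1
  members : ∀ i, ∃ (q : ℕ) (φ : Fin q → K) (R s : ℕ), (∀ j, φ j ≠ 0) ∧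
    Submodule.span ℂ (Set.range φ) = V i ∧ ¬ Splits (V i) φ ∧
    (R = d i + k i + 2 ∨ (Different (d i + k i + 3) φ ∧ R = d i + k i + 1)) ∧
    R * ((k i + 1) * (k i + 2)) < 2 * s ∧ Multiplicities w (V i) φ X s

/-- The image of the subfield `L` of `K` in the extension `K'`. -/
noncomputable def Up {K : Type} (K' : Type) [Field K] [Field K'] [Algebra ℂ K] [Algebra ℂ K']
    [Algebra K K'] [IsScalarTower ℂ K K'] (L : IntermediateField ℂ K) : IntermediateField ℂ K' :=
  L.map (IsScalarTower.toAlgHom ℂ K K')

/-- `ω` is a section of `N K_X`, where `X` of dimension `w` is given by the set of its prime divisors: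
an `N`-canonical form whose values on vector fields which are regular at `P` are regular at `P`, for
all prime divisors `P` of `X`. -/
def IsSection {K : Type} [Field K] [Algebra ℂ K] (w : ℕ) (X : Set (Place ℂ K)) (N : ℕ)
    (ω : (Fin w → Derivation ℂ K K) → K) : Prop :=
  IsPluri N ω ∧ ∀ P ∈ X, Divisorial w P → ∀ D : Fin w → Derivation ℂ K K,
    (∀ i, DerReg P (D i)) → P.Reg (ω D)

/-- `κ (X) ≥ κ`: some positive multiple of `K_X` has sections with `κ` algebraically independent
ratios (a nonzero section, if `κ = 0`). -/
def KodairaGe {K : Type} [Field K] [Algebra ℂ K] (w : ℕ) (X : Set (Place ℂ K)) (κ : ℕ) : Prop :=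
  ∃ N : ℕ, 0 < N ∧ ∃ ω : Fin (κ + 1) → (Fin w → Derivation ℂ K K) → K,
    (∀ j, IsSection w X N (ω j)) ∧
    ∃ D, ω 0 D ≠ 0 ∧ AlgebraicIndependent ℂ (fun i : Fin κ => ω i.succ D / ω 0 D)

open Classical in
/-- The sum over the roots `b` of `G` in an algebraic closure, of multiplicity `μ b`, of
`1 - gcd (m, μ b) / m`, plus `1 - gcd (m, deg G) / m`. Here `p` is one of the different irreducible
monic factors of `G`; it occurs `(normalizedFactors G).count p` times, and has `p.natDegree` roots. -/
noncomputable def weight {F : Type} [Field F] (m : ℕ) (G : Polynomial F) : ℚ :=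
  ∑ p ∈ (normalizedFactors G).toFinset,
    (p.natDegree : ℚ) * (1 - (m.gcd ((normalizedFactors G).count p) : ℚ) / m) +
      (1 - (m.gcd G.natDegree : ℚ) / m)

theorem closure_eq {K : Type} [Field K] [Algebra ℂ K] (L : IntermediateField ℂ K) :
    ClosureIn L = Pool.Agent.Y172.acl ℂ (L : Set K) := by
  ext z
  rw [Pool.Agent.Q298.JS.mem_A]
  unfold ClosureIn
  rw [IntermediateField.mem_restrictScalars, mem_algebraicClosure_iff]

theorem PowerfulSystems.sys {K : Type} [Field K] [Algebra ℂ K] {w : ℕ} {X : Set (Place ℂ K)}
    {c : ℕ} {d k : Fin c → ℕ} {V : Fin c → Submodule ℂ K} (h : PowerfulSystems w X d k V) :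
    Pool.Agent.Q298.JS.Sys w X d k V (fun _ _ => 0) := by
  refine ⟨h.pos, h.dim, h.rank, fun i => ?_, fun i => ?_⟩
  · have h1 := h.nondegenerate i
    rw [closure_eq] at h1
    exact h1
  · obtain ⟨q, φ, R, s, h1, h2, h3, h4, h5, h6⟩ := h.members i
    refine ⟨q, φ, R, s, h1, h2, h3, h4, by exact_mod_cast h5, fun P hPX hPd a ha hb hc => ?_⟩
    obtain ⟨j, hj⟩ := h6 P hPX hPd a ha hb hc
    refine ⟨j, ?_⟩
    have h7 : (s : ℤ) ≤ P.ord (φ j) - a := by omega
    have h8 : ((s : ℤ) : ℝ) ≤ ((P.ord (φ j) - a : ℤ) : ℝ) := by exact_mod_cast h7
    simpa using h8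

/-- **Subadditivity.** Let `K` be the function field of a projective manifold `X` of dimension
`d + (e₀ + e₁)`, where `d` is the sum of the `d i`, and let `V i` be linear systems on `X` with
`PowerfulSystems`. Let `K' = K (α)`, where `α` is algebraic over the function field of the image `Y`
of `X` under all `V i`, be generated by the elements which are algebraic over the function field of
`Y`, by the function field `M` of a variety `F₀` of dimension `e₀`, and by `x j` and `z j` (`j < e₁`)
with `z j ^ m j = G j (x j)`, where `m j ≥ 1` and the `G j` are nonzero polynomials with coefficients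
which are algebraic over the function field of `Y`. If all `weight (m j) (G j) ≥ 2` then
`κ (F₀) ≥ a` implies `κ (X) ≥ d + (a + g)`, where `g` is the number of the `j` with
`weight (m j) (G j) > 2`. -/
theorem result (c e₀ e₁ : ℕ) (d k : Fin c → ℕ) (K : Type) [Field K] [Algebra ℂ K]
    [Algebra.EssFiniteType ℂ K] (hK : Algebra.trdeg ℂ K = (∑ i, d i + (e₀ + e₁) : ℕ))
    (V : Fin c → Submodule ℂ K) (X : Set (Place ℂ K))
    (hV : PowerfulSystems (∑ i, d i + (e₀ + e₁)) X d k V)
    (K' : Type) [Field K'] [Algebra ℂ K'] [Algebra K K'] [IsScalarTower ℂ K K'] (α : K')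
    (hα : IsAlgebraic (Up K' (ImageField V c)) α) (hαt : IntermediateField.adjoin K {α} = ⊤)
    (M : IntermediateField ℂ K') [Algebra.EssFiniteType ℂ M] (hM : Algebra.trdeg ℂ M = e₀)
    (x z : Fin e₁ → K') (m : Fin e₁ → ℕ) (hm : ∀ j, 1 ≤ m j)
    (G : Fin e₁ → Polynomial (acl ℂ (Up K' (ImageField V c) : Set K'))) (hG : ∀ j, G j ≠ 0)
    (heq : ∀ j, z j ^ m j = Polynomial.aeval (x j) (G j))
    (hgen : IntermediateField.adjoin ℂ
      ((acl ℂ (Up K' (ImageField V c) : Set K') : Set K') ∪ (M : Set K') ∪ Set.range x ∪
        Set.range z) = ⊤)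
    (hW : ∀ j, 2 ≤ weight (m j) (G j)) (a : ℕ)
    (ha : KodairaGe e₀ (Set.univ : Set (Place ℂ M)) a) :
    KodairaGe (∑ i, d i + (e₀ + e₁)) X
      (∑ i, d i + (a + (Finset.univ.filter fun j => 2 < weight (m j) (G j)).card)) := by
  classical
  have hαK : IsAlgebraic K α := by
    have h1 : ∀ z ∈ Up K' (ImageField V c), ∃ a : K, algebraMap K K' a = z := by
      intro z hz
      unfold Up at hz
      rw [IntermediateField.mem_map] at hz
      obtain ⟨a, -, ha⟩ := hz
      exact ⟨a, ha⟩
    obtain ⟨p, hp0, hp⟩ := hα
    obtain ⟨p', hp'⟩ : ∃ p' : Polynomial K, p'.map (algebraMap K K') =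
        p.map (algebraMap (Up K' (ImageField V c)) K') := by
      refine (Polynomial.mem_lifts _).1 ((Polynomial.lifts_iff_coeff_lifts _).2 fun i => ?_)
      rw [Polynomial.coeff_map]
      obtain ⟨a, ha⟩ := h1 _ (p.coeff i).2
      exact ⟨a, ha⟩
    refine ⟨p', ?_, ?_⟩
    · rintro rfl
      rw [Polynomial.map_zero] at hp'
      exact hp0 ((Polynomial.map_eq_zero _).1 hp'.symm)
    · rw [← Polynomial.eval_map_algebraMap, hp', Polynomial.eval_map_algebraMap]
      exact hp
  have hfin : FiniteDimensional K K' := by
    have h1 : FiniteDimensional K (IntermediateField.adjoin K {α}) :=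
      IntermediateField.adjoin.finiteDimensional hαK.isIntegral
    rw [hαt] at h1
    exact Module.Finite.of_surjective
      (IntermediateField.topEquiv : (⊤ : IntermediateField K K') ≃ₐ[K] K').toLinearMap
      (IntermediateField.topEquiv).surjective
  have htop : ∀ z : K', ∃ p : Polynomial K, z = Polynomial.aeval α p := by
    intro z
    have h1 : z ∈ IntermediateField.adjoin K {α} := by
      rw [hαt]
      trivial
    rw [← IntermediateField.mem_toSubalgebra,
      IntermediateField.adjoin_simple_toSubalgebra_of_isAlgebraic hαK,
      Algebra.adjoin_singleton_eq_range_aeval] at h1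
    obtain ⟨p, hp⟩ := h1
    exact ⟨p, hp.symm⟩
  have hS := hV.sys
  have htr : Algebra.trdeg ℂ (ImageField V c) = (∑ i, d i : ℕ) := hS.top
  obtain ⟨m₀, hm₀, η, hη, hne₀⟩ := ha
  have hHF := Pool.Agent.Q298.MX.mixc hK htr (α := α) hα htop hM hm hG heq hgen X hW m₀ a hm₀ η
    (fun l => ⟨(hη l).1, fun P hP => (hη l).2 P (Set.mem_univ _) hP⟩) hne₀
  obtain ⟨N, hN, ω, h5, h6⟩ := hS.main hK (δ₂ := fun _ => 0) (δ := fun _ => 0)
    (fun _ _ _ => le_rfl) (fun _ _ => by simp) hHF
  refine ⟨N, hN, ω, fun j => ⟨(h5 j).1, fun P hPX hPd D hD => ?_⟩, h6⟩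
  rcases (h5 j).2 P hPX hPd D hD with h7 | h7
  · exact Or.inl h7
  · right
    have h8 : (0 : ℝ) ≤ (P.ord (ω j D) : ℝ) := by simpa using h7
    exact_mod_cast h8

end Pool.Agent.Results.MP_5c318e_ag.ConstantTimesSuperelliptic
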